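import Pool.Agent.Helper21.LQ.Defs

set_option autoImplicit false
set_option linter.unusedSectionVars false

/-!
# LQ, module TMAIN: the second phase for all stars
-/

namespace Pool.Agent.Helper21.LQ

open Finset

theorem tmain_sum {T : Type} [Fintype T] {m : ℕ} (e : T ≃ Fin m) (τ : ℕ → T)
    (hτ : ∀ t, τ (e t) = t) (F : T → ℝ) : ∑ j ∈ range m, F (τ j) = ∑ t, F t := by
  rw [Finset.sum_range]
  exact (Fintype.sum_equiv e _ _ (fun t => by simp [hτ])).symm

section
variable {R Γ : Type} [Fintype R] [DecidableEq R] [Fintype Γ] [DecidableEq Γ]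

/-- The row statistic. -/
noncomputable def tmain_ar (N : Finset R) (L : R → Finset Γ) (r : R) : R → Γ → ℝ :=
  fun r' γ => if r' = r then (if r' ∈ N ∧ γ ∈ L r' then 1 else 0) else 0

/-- The column statistic. -/
noncomputable def tmain_ac (N : Finset R) (L : R → Finset Γ) (γ : Γ) : R → Γ → ℝ :=
  fun r' γ' => if γ' = γ then (if r' ∈ N ∧ γ' ∈ L r' then 1 else 0) else 0

theorem tmain_ar_nonneg (N : Finset R) (L : R → Finset Γ) (r r' : R) (γ : Γ) :
    0 ≤ tmain_ar N L r r' γ := by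
  unfold tmain_ar; split_ifs <;> norm_num

theorem tmain_ac_nonneg (N : Finset R) (L : R → Finset Γ) (γ : Γ) (r' : R) (γ' : Γ) :
    0 ≤ tmain_ac N L γ r' γ' := by
  unfold tmain_ac; split_ifs <;> norm_num

theorem tmain_lin_ar (N : Finset R) (L : R → Finset Γ) (r : R) (hr : r ∈ N) (X : R → Γ → ℝ) :
    lin (tmain_ar N L r) X = ∑ γ ∈ L r, X r γ := by
  unfold lin tmain_ar
  rw [Finset.sum_eq_single r]
  · simp only [if_true, hr, true_and]
    rw [← Finset.sum_filter_add_sum_filter_not univ (fun γ => γ ∈ L r)]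
    rw [Finset.sum_eq_zero (s := univ.filter (fun γ => ¬ γ ∈ L r))]
    · rw [add_zero, Finset.filter_univ_mem]
      apply Finset.sum_congr rfl
      intro γ hγ
      rw [if_pos hγ, one_mul]
    · intro γ hγ
      rw [Finset.mem_filter] at hγ
      rw [if_neg hγ.2, zero_mul]
  · intro r' _ hne
    apply Finset.sum_eq_zero
    intro γ _
    rw [if_neg hne, zero_mul]
  · intro h; exact absurd (mem_univ r) h

theorem tmain_lin_ac (N : Finset R) (L : R → Finset Γ) (γ : Γ) (X : R → Γ → ℝ) :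
    lin (tmain_ac N L γ) X = colS N L X γ := by
  unfold lin tmain_ac colS
  rw [Finset.sum_filter]
  rw [← Finset.sum_filter_add_sum_filter_not univ (fun r => r ∈ N)]
  rw [Finset.sum_eq_zero (s := univ.filter (fun r => ¬ r ∈ N))]
  · rw [add_zero, Finset.filter_univ_mem]
    apply Finset.sum_congr rfl
    intro r hr
    rw [Finset.sum_eq_single γ]
    · simp only [if_true, hr, true_and]
      split_ifs
      · rw [one_mul]
      · rw [zero_mul]
    · intro γ' _ hne
      rw [if_neg hne, zero_mul]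
    · intro h; exact absurd (mem_univ γ) h
  · intro r hr
    rw [Finset.mem_filter] at hr
    apply Finset.sum_eq_zero
    intro γ' _
    simp [hr.2]

theorem tmain_sum_ar (N : Finset R) (L : R → Finset Γ) (r : R) (D : ℕ)
    (h : ∀ r ∈ N, (L r).card = D) : ∑ r', ∑ γ, tmain_ar N L r r' γ ≤ (D : ℝ) := by
  by_cases hr : r ∈ N
  · have h1 := tmain_lin_ar N L r hr (fun _ _ => 1)
    unfold lin at h1
    simp only [mul_one] at h1
    rw [h1, Finset.sum_const, h r hr]
    simp
  · have : ∑ r', ∑ γ, tmain_ar N L r r' γ = 0 := by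
      apply Finset.sum_eq_zero
      intro r' _
      apply Finset.sum_eq_zero
      intro γ _
      unfold tmain_ar
      split_ifs with h1 h2
      · subst h1; exact absurd h2.1 hr
      · rfl
      · rfl
    rw [this]
    positivity

theorem tmain_sum_ac (N : Finset R) (L : R → Finset Γ) (γ : Γ) :
    ∑ r', ∑ γ', tmain_ac N L γ r' γ' = (nn N L γ : ℝ) := by
  have h1 := tmain_lin_ac N L γ (fun _ _ => 1)
  unfold lin colS at h1
  simp only [mul_one] at h1
  rw [h1, Finset.sum_const]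
  unfold nn
  simp

theorem tmain_nn_le (N : Finset R) (L : R → Finset Γ) (γ : Γ) : nn N L γ ≤ N.card := by
  unfold nn
  exact Finset.card_filter_le _ _

theorem tmain_one_ar (N : Finset R) (L : R → Finset Γ) (r : R) (f : R → Option Γ) :
    ∑ r', ∑ γ, (if f r' = some γ then tmain_ar N L r r' γ else 0) ≤ 1 := by
  rw [Finset.sum_eq_single r]
  · cases hf : f r with
    | none => simp
    | some γ₀ =>
      rw [Finset.sum_eq_single γ₀]
      · rw [if_pos rfl]
        unfold tmain_ar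
        split_ifs <;> norm_num
      · intro γ _ hne
        rw [if_neg]
        intro h
        exact hne (Option.some.inj h).symm
      · intro h; exact absurd (mem_univ γ₀) h
  · intro r' _ hne
    apply Finset.sum_eq_zero
    intro γ _
    unfold tmain_ar
    rw [if_neg hne]
    split_ifs <;> rfl
  · intro h; exact absurd (mem_univ r) h

theorem tmain_one_ac (N : Finset R) (L : R → Finset Γ) (γ : Γ) (f : R → Option Γ) (hf : Inj f) :
    ∑ r', ∑ γ', (if f r' = some γ' then tmain_ac N L γ r' γ' else 0) ≤ 1 := by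
  have h1 : ∀ r', ∑ γ', (if f r' = some γ' then tmain_ac N L γ r' γ' else 0) ≤
      (if f r' = some γ then (1 : ℝ) else 0) := by
    intro r'
    rw [Finset.sum_eq_single γ]
    · unfold tmain_ac
      split_ifs <;> norm_num
    · intro γ' _ hne
      unfold tmain_ac
      rw [if_neg hne]
      split_ifs <;> rfl
    · intro h; exact absurd (mem_univ γ) h
  refine le_trans (Finset.sum_le_sum (fun r' _ => h1 r')) ?_
  rw [Finset.sum_boole]
  have : (univ.filter (fun r' => f r' = some γ)).card ≤ 1 := by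
    rw [Finset.card_le_one]
    intro x hx y hy
    rw [Finset.mem_filter] at hx hy
    exact hf x y γ hx.2 hy.2
  exact_mod_cast this

/-- The colours used by the partial map `g`. -/
def tmain_O (g : R → Option Γ) : Finset Γ := univ.filter (fun γ => ∃ r, g r = some γ)

/-- The rows coloured by the partial map `g`. -/
def tmain_P (g : R → Option Γ) : Finset R := univ.filter (fun r => g r ≠ none)

theorem tmain_mem_O (g : R → Option Γ) (γ : Γ) : γ ∈ tmain_O g ↔ ∃ r, g r = some γ := by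
  simp [tmain_O]

theorem tmain_mem_P (g : R → Option Γ) (r : R) : r ∈ tmain_P g ↔ g r ≠ none := by
  simp [tmain_P]

theorem tmain_card_O (g : R → Option Γ) : (tmain_O g).card ≤ (tmain_P g).card := by
  have h1 : ((tmain_O g).map ⟨some, Option.some_injective Γ⟩).card ≤
      ((tmain_P g).image g).card := by
    apply Finset.card_le_card
    intro x hx
    rw [Finset.mem_map] at hx
    obtain ⟨γ, hγ, rfl⟩ := hx
    rw [tmain_mem_O] at hγ
    obtain ⟨r, hr⟩ := hγ
    rw [Finset.mem_image]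
    refine ⟨r, ?_, ?_⟩
    · rw [tmain_mem_P, hr]; simp
    · exact hr
  rw [Finset.card_map] at h1
  exact le_trans h1 Finset.card_image_le

end

/-- Numerical consequences of the size condition. -/
theorem tmain_num {ε LN s : ℝ} (h0 : 0 < ε) (h1 : ε ≤ 1) (hL : 1 ≤ LN)
    (h : 2 ^ 153 * LN ≤ ε ^ 25 * s) :
    0 < s ∧ 4 * (2 / ε) ≤ s ∧ 4000 * (2 / ε) ^ 5 * LN ≤ dl ε ^ 2 * s ∧
      2 ^ 70 ≤ ε ^ 12 * s := by
  have e25 : 0 < ε ^ 25 := pow_pos h0 25
  have hpos : 0 < ε ^ 25 * s := by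
    refine lt_of_lt_of_le ?_ h
    positivity
  have hs : 0 < s := by
    by_contra hneg
    push Not at hneg
    have : ε ^ 25 * s ≤ 0 := mul_nonpos_of_nonneg_of_nonpos e25.le hneg
    linarith
  refine ⟨hs, ?_, ?_, ?_⟩
  · rw [mul_div_assoc', div_le_iff₀ h0]
    have h2 : ε ^ 25 * s ≤ ε ^ 1 * s :=
      mul_le_mul_of_nonneg_right (pow_le_pow_of_le_one h0.le h1 (by norm_num)) hs.le
    have h3 : (2 : ℝ) ^ 153 * 1 ≤ 2 ^ 153 * LN := by
      apply mul_le_mul_of_nonneg_left hL; positivity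
    have h4 : (4 * 2 : ℝ) ≤ 2 ^ 153 * 1 := by norm_num
    rw [pow_one] at h2
    linarith
  · have h5 : dl ε ^ 2 * s = (ε ^ 25 * s) / (ε ^ 5 * 2 ^ 136) := by
      unfold dl
      field_simp
    have h6 : 4000 * (2 / ε) ^ 5 * LN = (4000 * 2 ^ 5 * 2 ^ 136 * LN) / (ε ^ 5 * 2 ^ 136) := by
      field_simp
    rw [h5, h6]
    apply div_le_div_of_nonneg_right _ (by positivity)
    refine le_trans ?_ h
    apply mul_le_mul_of_nonneg_right _ (by linarith)
    norm_num
  · have h2 : ε ^ 25 * s ≤ ε ^ 12 * s :=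
      mul_le_mul_of_nonneg_right (pow_le_pow_of_le_one h0.le h1 (by norm_num)) hs.le
    have h3 : (2 : ℝ) ^ 153 * 1 ≤ 2 ^ 153 * LN := by
      apply mul_le_mul_of_nonneg_left hL; positivity
    have h4 : (2 : ℝ) ^ 70 ≤ 2 ^ 153 * 1 := by norm_num
    linarith

theorem tmain_dl_pos {ε : ℝ} (h0 : 0 < ε) : 0 < dl ε := by
  unfold dl; positivity

theorem tmain_dl_le {ε : ℝ} (h0 : 0 < ε) (h1 : ε ≤ 1) : dl ε ≤ 1 := by
  unfold dl
  have h2 : ε ^ 10 ≤ 1 := pow_le_one₀ h0.le h1
  rw [div_le_one (by positivity)]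
  refine le_trans h2 ?_
  norm_num


/-- The weights: the colours left to the second phase and those of the first. -/
theorem tmain_weights {R T Γ : Type} [Fintype R] [DecidableEq R] [Fintype T] [DecidableEq T]
    [Fintype Γ] [DecidableEq Γ] (N P : T → Finset R) (D : T → ℕ) (L L₀ : T → R → Finset Γ)
    (O : T → Finset Γ) (hL₀ : ∀ t, ∀ r ∈ N t, L₀ t r ⊆ L t r) (r : R) (γ : Γ) :
    ∑ t, (if r ∈ N t ∧ γ ∈ L₀ t r then 1 / (D t : ℝ) else 0) +
      ∑ t, (if γ ∈ (if r ∈ N t ∧ r ∉ P t then L t r \ (L₀ t r ∪ O t) else ∅)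
        then 1 / (D t : ℝ) else 0) ≤
      ∑ t, (if r ∈ N t ∧ γ ∈ L t r then 1 / (D t : ℝ) else 0) := by
  rw [← Finset.sum_add_distrib]
  apply Finset.sum_le_sum
  intro t _
  have hD : (0 : ℝ) ≤ 1 / (D t : ℝ) := by positivity
  by_cases h1 : r ∈ N t ∧ γ ∈ L₀ t r
  · have h2 : ¬ γ ∈ (if r ∈ N t ∧ r ∉ P t then L t r \ (L₀ t r ∪ O t) else ∅) := by
      split_ifs with h
      · simp [h1.2]
      · simp
    rw [if_pos h1, if_neg h2, if_pos ⟨h1.1, hL₀ t r h1.1 h1.2⟩, add_zero]
  · rw [if_neg h1, zero_add]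
    by_cases h2 : γ ∈ (if r ∈ N t ∧ r ∉ P t then L t r \ (L₀ t r ∪ O t) else ∅)
    · rw [if_pos h2]
      split_ifs at h2 with h
      · rw [Finset.mem_sdiff] at h2
        rw [if_pos ⟨h.1, h2.1⟩]
      · simp at h2
    · rw [if_neg h2]
      split_ifs <;> [exact hD; exact le_rfl]

theorem tmain_slack {R T Γ : Type} [Fintype R] [DecidableEq R] [Fintype T] [DecidableEq T]
    [Fintype Γ] [DecidableEq Γ] (N : T → Finset R) (D : T → ℕ) (L : T → R → Finset Γ)
    (r : R) (γ : Γ) :
    ∑ t, (if r ∈ N t ∧ γ ∈ L t r then 1 / (D t : ℝ) else 0) ≤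
      ∑ t, (if r ∈ N t then 1 / (D t : ℝ) else 0) := by
  apply Finset.sum_le_sum
  intro t _
  have hD : (0 : ℝ) ≤ 1 / (D t : ℝ) := by positivity
  by_cases h : r ∈ N t
  · rw [if_pos h]
    split_ifs <;> [exact le_rfl; exact hD]
  · rw [if_neg h, if_neg (fun h2 => h h2.1)]

theorem st_TMAIN (hPHASE : ST_PHASE) (hMAIN : ST_MAIN) : ST_TMAIN := by
  intro R T Γ I W _ _ _ _ _ _ _ _ ε LN N D L a sI v w K sW L₀ g X₀ hT hL0 hL0c hgc hgi hg hgd
    hX0 hrow hcol hcov
  have h0 := hT.pos
  have h1 := hT.le_one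
  have hLN := hT.one_le
  have hdl := tmain_dl_pos h0
  have hdl1 := tmain_dl_le h0 h1
  have hnum : ∀ t, _ := fun t => tmain_num h0 h1 hLN (hT.large t)
  have hnumI : ∀ i, _ := fun i => tmain_num h0 h1 hLN (hT.sI_large i)
  have hnumW : ∀ i, _ := fun i => tmain_num h0 h1 hLN (hT.sW_large i)
  have hL₀' : ∀ t, ∀ r ∈ N t, L₀ t r ⊆ L t r := fun t r hr =>
    (hL0 t r hr).trans Finset.sdiff_subset
  rcases isEmpty_or_nonempty T with hemp | ⟨⟨t₀⟩⟩
  · refine ⟨fun t => (hemp.false t).elim, X₀, fun t => (hemp.false t).elim,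
      fun t => (hemp.false t).elim, fun t => (hemp.false t).elim, fun t => (hemp.false t).elim,
      fun t => (hemp.false t).elim, ?_, ?_, ?_⟩
    · intro r γ
      have h := hX0 r γ
      simp only [Finset.univ_eq_empty, Finset.sum_empty] at h ⊢
      exact h
    · intro i
      rw [sub_self, abs_zero]
      exact mul_nonneg hdl.le (hnumI i).1.le
    · intro i
      have := mul_nonneg hdl.le (hnumW i).1.le
      linarith
  -- the enumeration
  obtain ⟨m, hm⟩ : ∃ m, m = Fintype.card T := ⟨_, rfl⟩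
  obtain ⟨e⟩ : Nonempty (T ≃ Fin m) := ⟨hm ▸ Fintype.equivFin T⟩
  obtain ⟨τ, hτ, hτ'⟩ : ∃ τ : ℕ → T, (∀ t, τ (e t) = t) ∧ (∀ j, ∀ hj : j < m, e (τ j) = ⟨j, hj⟩) := by
    refine ⟨fun j => if h : j < m then e.symm ⟨j, h⟩ else t₀, ?_, ?_⟩
    · intro t
      have : ((e t : ℕ) < m) := (e t).2
      simp only [this, dif_pos]
      exact e.symm_apply_apply t
    · intro j hj
      simp only [hj, dif_pos]
      exact e.apply_symm_apply _
  -- the choices
  set Cc : T → R → Finset Γ := fun t r =>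
    if r ∈ N t ∧ r ∉ tmain_P (g t) then L t r \ (L₀ t r ∪ tmain_O (g t)) else ∅ with hCc
  set Gd : T → (R → Option Γ) → Prop := fun t f =>
    ∀ r, f r ≠ none ↔ (r ∈ N t ∧ r ∉ tmain_P (g t)) with hGd
  have hPN : ∀ t, tmain_P (g t) ⊆ N t := by
    intro t r hr
    rw [tmain_mem_P] at hr
    obtain ⟨γ, hγ⟩ := Option.ne_none_iff_exists'.mp hr
    exact (hg t r γ hγ).1
  have hPc : ∀ t, (tmain_P (g t)).card = hh ε (N t) (D t) (L t) := hgc
  have hOF : ∀ t, Disjoint (tmain_O (g t)) (Full ε (N t) (D t) (L t)) := by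
    intro t
    rw [Finset.disjoint_left]
    intro γ hγ hF
    rw [tmain_mem_O] at hγ
    obtain ⟨r, hr⟩ := hγ
    obtain ⟨hr1, hr2, _⟩ := hg t r γ hr
    have := hL0 t r hr1 hr2
    rw [Finset.mem_sdiff] at this
    exact this.2 hF
  have hslack : ∀ r, ∑ j ∈ range m, (if r ∈ N (τ j) then 1 / (D (τ j) : ℝ) else 0) ≤ 1 - ε := by
    intro r
    rw [tmain_sum e τ hτ (fun t => if r ∈ N t then 1 / (D t : ℝ) else 0)]
    exact hT.slack r
  -- apply PHASE
  obtain ⟨f, X, hf1, hf2, hf3, hX1, hX2, hX3, hX4, hX5⟩ := hPHASE R Γ (I ⊕ ((T × R) ⊕ (T × Γ)))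
    {x : T × Γ × Γ // x.2.1 ≠ x.2.2} W m (fun j => (D (τ j) : ℝ)) (fun j => N (τ j))
    (fun j => Cc (τ j)) (fun j => Gd (τ j)) X₀
    (fun r γ => 1 - (1 + ε / 4) * ∑ t, (if r ∈ N t ∧ γ ∈ L₀ t r then 1 / (D t : ℝ) else 0))
    (1 + ε / 4) (2 / ε) (dl ε) LN
    (Sum.elim a (Sum.elim (fun x => tmain_ar (N x.1) (L x.1) x.2)
      (fun x => tmain_ac (N x.1) (L x.1) x.2)))
    (Sum.elim sI (Sum.elim (fun x => (D x.1 : ℝ)) (fun x => (D x.1 : ℝ))))
    (fun _ => m)
    (fun q => (N q.1.1).filter (fun r => q.1.2.1 ∈ L q.1.1 r ∧ q.1.2.2 ∈ L q.1.1 r))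
    (fun q => q.1.2.1) (fun q => q.1.2.2) (fun q => (D q.1.1 : ℝ)) v w K sW
    (by rw [le_div_iff₀ h0]; linarith) (by linarith) (by linarith) hdl hdl1 hLN
    (by
      have hc := hT.count
      have hQ : (Fintype.card {x : T × Γ × Γ // x.2.1 ≠ x.2.2} : ℝ) ≤
          Fintype.card T * (Fintype.card Γ) ^ 2 := by
        have : Fintype.card {x : T × Γ × Γ // x.2.1 ≠ x.2.2} ≤ Fintype.card (T × Γ × Γ) :=
          Fintype.card_subtype_le _
        rw [Fintype.card_prod, Fintype.card_prod] at this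
        have h2 : ((Fintype.card {x : T × Γ × Γ // x.2.1 ≠ x.2.2} : ℕ) : ℝ) ≤
          ((Fintype.card T * (Fintype.card Γ * Fintype.card Γ) : ℕ) : ℝ) := by exact_mod_cast this
        push_cast at h2
        rw [pow_two]
        exact h2
      rw [Fintype.card_sum, Fintype.card_sum, Fintype.card_prod, Fintype.card_prod]
      push_cast
      have hT0 : (0 : ℝ) ≤ Fintype.card T := by positivity
      nlinarith [hc, hQ, hT0])
    (fun j _ => (hnum (τ j)).2.1)
    (by
      intro j r hr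
      simp only [hCc]
      rw [if_neg]
      intro h
      exact hr h.1)
    (fun r => le_trans (hslack r) (by linarith))
    hX0
    (by
      intro r γ
      have e1 := tmain_sum e τ hτ (fun t => if γ ∈ Cc t r then 1 / (D t : ℝ) else 0)
      have e2 := tmain_weights N (fun t => tmain_P (g t)) D L L₀ (fun t => tmain_O (g t)) hL₀' r γ
      have e3 := tmain_slack N D L r γ
      have e4 := hT.slack r
      have e5 : (1 : ℝ) / (2 / ε) = ε / 2 := by field_simp
      rw [e1, e5]
      simp only [hCc]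
      have e6 : (∑ t, (if r ∈ N t ∧ γ ∈ L₀ t r then 1 / (D t : ℝ) else 0) +
        ∑ t, (if γ ∈ (if r ∈ N t ∧ r ∉ tmain_P (g t) then L t r \ (L₀ t r ∪ tmain_O (g t)) else ∅)
        then 1 / (D t : ℝ) else 0)) ≤ 1 - ε := le_trans e2 (le_trans e3 e4)
      have e7 := mul_le_mul_of_nonneg_left e6 (by linarith : (0 : ℝ) ≤ 1 + ε / 4)
      nlinarith [e7, h0, h1])
    (by
      rintro (i | x | x) r γ
      · exact hT.a_nonneg i r γ
      · exact tmain_ar_nonneg _ _ _ _ _
      · exact tmain_ac_nonneg _ _ _ _ _)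
    (by
      rintro (i | x | x)
      · exact hT.a_sum i
      · exact tmain_sum_ar _ _ _ _ (hT.card x.1)
      · simp only [Sum.elim_inr]
        rw [tmain_sum_ac]
        exact_mod_cast le_trans (tmain_nn_le _ _ _) (hT.rows x.1))
    (by
      rintro (i | x | x)
      · exact (hnumI i).2.2.1
      · exact (hnum x.1).2.2.1
      · exact (hnum x.1).2.2.1)
    (by
      rintro (i | x | x) j hj _ f _ hinj _
      · exact hT.a_one i f hinj
      · exact tmain_one_ar _ _ _ _
      · exact tmain_one_ac _ _ _ _ hinj)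
    (fun q => q.2)
    (fun q => by
      exact_mod_cast le_trans (Finset.card_filter_le _ _) (hT.rows q.1.1))
    (fun q => (hnum q.1.1).2.2.1)
    hT.ne hT.K_card (fun i => (hnumW i).2.2.1)
    (by
      intro j hj X hX1 hX2 hX3 hX4 _
      obtain ⟨t, ht⟩ : ∃ t, t = τ j := ⟨_, rfl⟩
      rw [← ht]
      apply hMAIN R Γ ε (N t) (tmain_P (g t)) (D t) (L t) (L₀ t) (tmain_O (g t)) X h0 h1
        (hT.rows t) (hT.card t) (hnum t).2.2.2 (hPN t) (hPc t)
        (le_trans (tmain_card_O (g t)) (hPc t).le) (hOF t) (hL0 t)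
        (fun r hr => (hL0c t r hr).le) hX1
      · intro r hr
        have e1 := hX3 (Sum.inr (Sum.inl (t, r))) hj.le
        simp only [Sum.elim_inr, Sum.elim_inl] at e1
        rw [tmain_lin_ar _ _ _ hr, tmain_lin_ar _ _ _ hr] at e1
        have e2 := hrow t r hr
        rw [abs_le] at e1 e2 ⊢
        constructor <;> linarith [e1.1, e1.2, e2.1, e2.2]
      · intro γ
        have e1 := hX3 (Sum.inr (Sum.inr (t, γ))) hj.le
        simp only [Sum.elim_inr] at e1
        rw [tmain_lin_ac, tmain_lin_ac] at e1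
        have e2 := hcol t γ
        rw [abs_le] at e1 e2 ⊢
        constructor <;> linarith [e1.1, e1.2, e2.1, e2.2]
      · intro γ γ' hne
        have e1 := hX4 ⟨(t, γ, γ'), hne⟩
        have e2 := hcov t γ γ' hne
        simp only at e1
        linarith)
  -- the colouring
  have hidx : ∀ t, (e t : ℕ) < m := fun t => (e t).2
  have hf1' : ∀ t, Gd t (f (e t)) ∧ Inj (f (e t)) := by
    intro t
    have := hf1 (e t) (hidx t)
    rw [hτ] at this
    exact this
  have hf2' : ∀ t r γ, f (e t) r = some γ → γ ∈ Cc t r ∧ X₀ r γ ≠ 0 ∧ X r γ = 0 := by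
    intro t r γ h
    have := hf2 (e t) (hidx t) r γ h
    rw [hτ] at this
    exact this
  have hf3' : ∀ t t' r γ, f (e t) r = some γ → f (e t') r = some γ → t = t' := by
    intro t t' r γ h h'
    by_contra hne
    have hne' : (e t : ℕ) ≠ (e t' : ℕ) := by
      intro h2
      exact hne (e.injective (Fin.ext h2))
    exact hf3 (e t) (hidx t) (e t') (hidx t') hne' r γ h h'
  refine ⟨fun t r => if g t r = none then f (e t) r else g t r, X, ?_, ?_, ?_, ?_, ?_, ?_, ?_, hX5⟩
  · intro t r hr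
    have hgn : g t r = none := by
      by_contra h
      obtain ⟨γ, hγ⟩ := Option.ne_none_iff_exists'.mp h
      exact hr (hg t r γ hγ).1
    simp only [hgn, if_true]
    by_contra h
    exact hr (((hf1' t).1 r).1 h).1
  · intro t r hr
    by_cases hgn : g t r = none
    · simp only [hgn, if_true]
      have hrP : r ∉ tmain_P (g t) := by
        rw [tmain_mem_P]; exact fun h => h hgn
      have h2 := ((hf1' t).1 r).2 ⟨hr, hrP⟩
      obtain ⟨γ, hγ⟩ := Option.ne_none_iff_exists'.mp h2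
      refine ⟨γ, ?_, hγ⟩
      have h3 := (hf2' t r γ hγ).1
      simp only [hCc] at h3
      rw [if_pos ⟨hr, hrP⟩, Finset.mem_sdiff] at h3
      exact h3.1
    · simp only [hgn, if_false]
      obtain ⟨γ, hγ⟩ := Option.ne_none_iff_exists'.mp hgn
      exact ⟨γ, hL₀' t r hr (hg t r γ hγ).2.1, hγ⟩
  · intro t r r' γ hr hr'
    simp only at hr hr'
    have key : ∀ x y, g t x = some γ → f (e t) y = some γ → False := by
      intro x y hx hy
      have h3 := (hf2' t y γ hy).1
      simp only [hCc] at h3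
      split_ifs at h3 with h4
      · rw [Finset.mem_sdiff, Finset.mem_union, tmain_mem_O] at h3
        exact h3.2 (Or.inr ⟨x, hx⟩)
      · simp at h3
    split_ifs at hr hr' with h2 h3 h3
    · exact (hf1' t).2 r r' γ hr hr'
    · exact (key r' r hr' hr).elim
    · exact (key r r' hr hr').elim
    · exact hgi t r r' γ hr hr'
  · intro t t' r γ hr hr'
    simp only at hr hr'
    split_ifs at hr hr' with h2 h3 h3
    · exact hf3' t t' r γ hr hr'
    · exact absurd (hg t' r γ hr').2.2 (hf2' t r γ hr).2.1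
    · exact absurd (hg t r γ hr).2.2 (hf2' t' r γ hr').2.1
    · exact hgd t t' r γ hr hr'
  · intro t r γ hr
    simp only at hr
    split_ifs at hr with h2
    · exact (hf2' t r γ hr).2.2
    · exact hX1 r γ (hg t r γ hr).2.2
  · intro r γ
    rcases hX2 r γ with h | ⟨h2, h3⟩
    · exact Or.inl h
    · refine Or.inr ⟨h2, le_trans ?_ h3⟩
      have e1 := tmain_sum e τ hτ (fun t => if γ ∈ Cc t r then 1 / (D t : ℝ) else 0)
      have e2 := tmain_weights N (fun t => tmain_P (g t)) D L L₀ (fun t => tmain_O (g t)) hL₀' r γ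
      rw [e1]
      simp only [hCc]
      have e7 := mul_le_mul_of_nonneg_left e2 (by linarith : (0 : ℝ) ≤ 1 + ε / 4)
      linarith
  · intro i
    exact hX3 (Sum.inl i) le_rfl

end Pool.Agent.Helper21.LQ
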